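import Mathlib
import Pool.Agent.Q84.Pow.Main

/-! # Powers of `n + 1` general forms: the expected Hilbert series fails for quadrics in many
variables

The polynomial map `ℂⁿ → ℂⁿ⁺¹` given by `n + 1` quadratic forms has, if `n > r (r + 1)`, a point
`p ≠ 0` at which its Jacobian matrix has rank at most `n - r`. The fibre through `p` then has a
local algebra of length at least `r (r + 1) (r - 1) / 6` at `p`. Forms of degree `2 k + 1` in the
`k`-th power of the ideal restrict to this fibre as the linear forms do, so they fill at most `n`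
dimensions; but all forms of degree `2 k + 1` together fill the local algebra. -/

set_option autoImplicit false

namespace Pool.Agent.Results.MP_c355a0_ag.ManyVariables

open MvPolynomial

/-- The dimension over `ℂ` of the degree `i` part of `S / J`, where `S = ℂ[x_1, ..., x_n]`: the
dimension of the quotient of `S_i` by `J ∩ S_i`. -/
noncomputable def hilbCoeff {n : ℕ} (J : Ideal (MvPolynomial (Fin n) ℂ)) (i : ℕ) : ℕ :=
  Module.finrank ℂ (homogeneousSubmodule (Fin n) ℂ i ⧸
    (J.restrictScalars ℂ).submoduleOf (homogeneousSubmodule (Fin n) ℂ i))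

/-- The Hilbert series of `S / J`. -/
noncomputable def hilbSeries {n : ℕ} (J : Ideal (MvPolynomial (Fin n) ℂ)) : PowerSeries ℤ :=
  PowerSeries.mk fun i => (hilbCoeff J i : ℤ)

/-- The series `H_{n,d,k}` (for `k ≥ d ^ (n - 1)`). -/
noncomputable def H (n d k : ℕ) : PowerSeries ℤ :=
  PowerSeries.mk fun i =>
    if i < d * k then ((i + n - 1).choose (n - 1) : ℤ)
    else if i = d * k then
      ((d * k + n - 1).choose (n - 1) : ℤ) - ((k + n).choose n : ℤ) +
        ((k - d ^ (n - 1) + n).choose n : ℤ)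
    else 0

/-- The property `P` holds for general forms `f_1, ..., f_{n+1}` of degree `d`: there is a
polynomial `D` in the coefficients of the forms, which does not vanish for all tuples of forms of
degree `d`, such that `P` holds for all tuples of forms of degree `d` at which `D` does not
vanish. -/
def ForGeneral (n d : ℕ) (P : (Fin (n + 1) → MvPolynomial (Fin n) ℂ) → Prop) : Prop :=
  ∃ D : MvPolynomial (Fin (n + 1) × (Fin n →₀ ℕ)) ℂ,
    (∃ f : Fin (n + 1) → MvPolynomial (Fin n) ℂ, (∀ i, (f i).IsHomogeneous d) ∧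
      eval (fun t => coeff t.2 (f t.1)) D ≠ 0) ∧
    ∀ f : Fin (n + 1) → MvPolynomial (Fin n) ℂ, (∀ i, (f i).IsHomogeneous d) →
      eval (fun t => coeff t.2 (f t.1)) D ≠ 0 → P f

lemma exists_r (n : ℕ) (hn : (73 ≤ n ∧ n ≤ 83) ∨ 91 ≤ n) :
    ∃ r : ℕ, (r + 1) * r < n ∧
      n + (r + 1) ^ 2 < 1 + r + (r + 1).choose 2 + (r + 2).choose 3 := by
  rcases hn with ⟨h1, h2⟩ | hn
  · refine ⟨8, by omega, ?_⟩
    have e1 : (8 + 1).choose 2 = 36 := by decide
    have e2 : (8 + 2).choose 3 = 120 := by decide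
    rw [e1, e2]
    omega
  · have hex : ∃ r : ℕ, n ≤ (r + 2) * (r + 1) := ⟨n, by nlinarith⟩
    classical
    obtain ⟨r, hr⟩ : ∃ r, r = Nat.find hex := ⟨_, rfl⟩
    have h1 : n ≤ (r + 2) * (r + 1) := hr ▸ Nat.find_spec hex
    have h2 : 9 ≤ r := by
      by_contra hlt
      push Not at hlt
      have : (r + 2) * (r + 1) ≤ 10 * 9 := Nat.mul_le_mul (by omega) (by omega)
      omega
    have h3 : (r + 1) * r < n := by
      have h4 := Nat.find_min hex (m := r - 1) (by omega)
      rw [show r - 1 + 2 = r + 1 by omega, show r - 1 + 1 = r by omega] at h4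
      omega
    refine ⟨r, h3, ?_⟩
    have e1 : (r + 1).choose 2 * 2 = (r + 1) * r := by
      have := Nat.choose_succ_right_eq (r + 1) 1
      simpa using this
    have e3 : (r + 2).choose 2 * 2 = (r + 2) * (r + 1) := by
      have := Nat.choose_succ_right_eq (r + 2) 1
      simpa using this
    have e2 : (r + 2).choose 3 * 3 = (r + 2).choose 2 * r := by
      have := Nat.choose_succ_right_eq (r + 2) 2
      simpa using this
    have e4 : (r + 2).choose 3 * 6 = (r + 2) * (r + 1) * r := by nlinarith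
    obtain ⟨t, rfl⟩ : ∃ t, r = t + 9 := ⟨r - 9, by omega⟩
    nlinarith

lemma hilbCoeff_pos (n k : ℕ) (hn : (73 ≤ n ∧ n ≤ 83) ∨ 91 ≤ n) (hk : 1 ≤ k)
    (f : Fin (n + 1) → MvPolynomial (Fin n) ℂ) (hf : ∀ i, (f i).IsHomogeneous 2) :
    0 < hilbCoeff (Ideal.span (Set.range f) ^ k) (2 * k + 1) := by
  obtain ⟨r, hr1, hr2⟩ := exists_r n hn
  obtain ⟨g, hg1, hg2⟩ := Pool.Agent.Q84.Pow.exists_form_not_mem (K := ℂ) two_ne_zero hk hr1 hr2 f hf
  have hfin : Module.Finite ℂ (homogeneousSubmodule (Fin n) ℂ (2 * k + 1)) :=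
    Module.Finite.iff_fg.2 (homogeneousSubmodule_fg (Fin n) ℂ _)
  have hnt : Nontrivial (homogeneousSubmodule (Fin n) ℂ (2 * k + 1) ⧸
      ((Ideal.span (Set.range f) ^ k).restrictScalars ℂ).submoduleOf
        (homogeneousSubmodule (Fin n) ℂ (2 * k + 1))) := by
    rw [Submodule.Quotient.nontrivial_iff]
    intro htop
    have h1 : (⟨g, hg1⟩ : homogeneousSubmodule (Fin n) ℂ (2 * k + 1)) ∈
        ((Ideal.span (Set.range f) ^ k).restrictScalars ℂ).submoduleOf
        (homogeneousSubmodule (Fin n) ℂ (2 * k + 1)) := by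
      rw [htop]; trivial
    exact hg2 h1
  exact Module.finrank_pos

lemma hilbSeries_ne (n k : ℕ) (hn : (73 ≤ n ∧ n ≤ 83) ∨ 91 ≤ n) (hk : 1 ≤ k)
    (f : Fin (n + 1) → MvPolynomial (Fin n) ℂ) (hf : ∀ i, (f i).IsHomogeneous 2) :
    hilbSeries (Ideal.span (Set.range f) ^ k) ≠ H n 2 k := by
  intro h
  have h1 := congrArg (PowerSeries.coeff (2 * k + 1)) h
  unfold hilbSeries H at h1
  rw [PowerSeries.coeff_mk, PowerSeries.coeff_mk, if_neg (by omega), if_neg (by omega)] at h1
  have h2 := hilbCoeff_pos n k hn hk f hf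
  omega

/-- **Q1 is false.** Let `73 ≤ n ≤ 83` or `n ≥ 91`. For all `k ≥ 1` and all quadratic forms
`f_1, ..., f_{n+1}` in `n` variables over `ℂ` the algebra `S / (f_1, ..., f_{n+1}) ^ k` is not zero
in degree `2 k + 1`. In particular, for all `k ≥ 2 ^ (n - 1)`, for general forms of degree `2` the
Hilbert series of this algebra differs from `H_{n,2,k}`. -/
theorem result (n : ℕ) (hn : (73 ≤ n ∧ n ≤ 83) ∨ 91 ≤ n) :
    (∀ k : ℕ, 1 ≤ k → ∀ f : Fin (n + 1) → MvPolynomial (Fin n) ℂ, (∀ i, (f i).IsHomogeneous 2) →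
      0 < hilbCoeff (Ideal.span (Set.range f) ^ k) (2 * k + 1)) ∧
    ∀ k : ℕ, 2 ^ (n - 1) ≤ k →
      ForGeneral n 2 fun f => hilbSeries (Ideal.span (Set.range f) ^ k) ≠ H n 2 k := by
  refine ⟨fun k hk f hf => hilbCoeff_pos n k hn hk f hf, fun k hk => ?_⟩
  have hk1 : 1 ≤ k := (Nat.one_le_two_pow).trans hk
  refine ⟨1, ⟨0, fun i => isHomogeneous_zero _ _ _, by simp⟩, fun f hf _ => ?_⟩
  exact hilbSeries_ne n k hn hk1 f hf

end Pool.Agent.Results.MP_c355a0_ag.ManyVariables
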